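import Mathlib

set_option autoImplicit false

namespace Pool.Agent.Work.MP_9fe0db_an

/-- scalar Clarkson inequality for exponent at least two -/
theorem clarkson_scalar {q a b : ℝ} (hq : 2 ≤ q) (hb : 0 ≤ b) (hab : b ≤ a) :
    ((a + b) / 2) ^ q + ((a - b) / 2) ^ q ≤ (a ^ q + b ^ q) / 2 := by
  have ha : 0 ≤ a := hb.trans hab
  have hr : (1 : ℝ) ≤ q / 2 := by linarith
  have key : ∀ t : ℝ, 0 ≤ t → t ^ q = (t ^ 2) ^ (q / 2) := by
    intro t ht
    rw [← Real.rpow_natCast, ← Real.rpow_mul ht]
    congr 1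
    push_cast
    ring
  rw [key _ (by linarith : 0 ≤ (a + b) / 2), key _ (by linarith : 0 ≤ (a - b) / 2), key a ha,
    key b hb]
  have h1 := Real.add_rpow_le_rpow_add (a := ((a + b) / 2) ^ 2) (b := ((a - b) / 2) ^ 2)
    (by positivity) (by positivity) hr
  have h2 : ((a + b) / 2) ^ 2 + ((a - b) / 2) ^ 2 = (1 / 2 : ℝ) * a ^ 2 + (1 / 2 : ℝ) * b ^ 2 := by
    ring
  rw [h2] at h1
  have hc := (convexOn_rpow hr).2 (Set.mem_Ici.2 (by positivity : (0 : ℝ) ≤ a ^ 2))
    (Set.mem_Ici.2 (by positivity : (0 : ℝ) ≤ b ^ 2)) (by norm_num : (0 : ℝ) ≤ 1 / 2)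
    (by norm_num : (0 : ℝ) ≤ 1 / 2) (by norm_num)
  simp only [smul_eq_mul] at hc
  linarith

/-- midpoint convexity of the power -/
theorem pow_mid {q a b : ℝ} (hq : 1 ≤ q) (ha : 0 ≤ a) (hb : 0 ≤ b) :
    ((a + b) / 2) ^ q ≤ (a ^ q + b ^ q) / 2 := by
  have hc := (convexOn_rpow hq).2 (Set.mem_Ici.2 ha)
    (Set.mem_Ici.2 hb) (by norm_num : (0 : ℝ) ≤ 1 / 2)
    (by norm_num : (0 : ℝ) ≤ 1 / 2) (by norm_num)
  simp only [smul_eq_mul] at hc
  have : (1 / 2 : ℝ) * a + 1 / 2 * b = (a + b) / 2 := by ring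
  rw [this] at hc
  linarith

/-- Bernoulli -/
theorem bern {q a : ℝ} (hq : 1 ≤ q) (ha : 0 ≤ a) : 1 + q * (a - 1) ≤ a ^ q := by
  have := one_add_mul_self_le_rpow_one_add (s := a - 1) (by linarith) hq
  simpa using this

/-- upper quadratic bound -/
theorem quad_upper {q a : ℝ} (hq : 2 ≤ q) (ha : 0 ≤ a) (ha2 : a ≤ 2) :
    a ^ q ≤ 1 + q * (a - 1) + (q * (q - 1) * 2 ^ q) * (a - 1) ^ 2 := by
  -- tangent inequality: for positive a, 1 ≥ a^s + s a^(s-1) (1-a)
  have tang : ∀ s : ℝ, 1 ≤ s → 0 < a → a ^ s ≤ 1 + s * a ^ (s - 1) * (a - 1) := by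
    intro s hs ha0
    have h := bern (q := s) (a := 1 / a) hs (by positivity)
    have h2 : a ^ s * (1 + s * (1 / a - 1)) ≤ a ^ s * (1 / a) ^ s :=
      mul_le_mul_of_nonneg_left h (by positivity)
    rw [← Real.mul_rpow ha (by positivity), mul_one_div_cancel ha0.ne', Real.one_rpow] at h2
    have h3 : a ^ s = a ^ (s - 1) * a := by
      rw [← Real.rpow_add_one ha0.ne']; congr 1; ring
    have h4 : a ^ s * (1 + s * (1 / a - 1)) = a ^ s + s * a ^ (s - 1) * (1 - a) := by
      rw [h3]; field_simp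
    rw [h4] at h2
    linarith
  rcases ha.eq_or_lt with h0 | h0
  · subst h0
    rw [Real.zero_rpow (by linarith)]
    have : (1 : ℝ) ≤ 2 ^ q := Real.one_le_rpow (by norm_num) (by linarith)
    nlinarith [mul_nonneg (mul_nonneg (by linarith : (0 : ℝ) ≤ q) (by linarith : (0 : ℝ) ≤ q - 1))
      (by linarith : (0 : ℝ) ≤ 2 ^ q - 1)]
  · have hA := tang q (by linarith) h0
    have hB : q * a ^ (q - 1) * (a - 1) ≤ q * (a - 1) + (q * (q - 1) * 2 ^ q) * (a - 1) ^ 2 := by
      have hq0 : 0 < q := by linarith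
      have hC : (a ^ (q - 1) - 1) * (a - 1) ≤ ((q - 1) * 2 ^ q) * (a - 1) ^ 2 := by
        have h2q : (1 : ℝ) ≤ 2 ^ q := Real.one_le_rpow (by norm_num) (by linarith)
        rcases le_total 1 a with h1 | h1
        · have hD := tang (q - 1) (by linarith) h0
          have hE : a ^ (q - 1 - 1) ≤ 2 ^ q := by
            calc a ^ (q - 1 - 1) ≤ 2 ^ (q - 1 - 1) :=
                  Real.rpow_le_rpow ha ha2 (by linarith)
              _ ≤ 2 ^ q := Real.rpow_le_rpow_of_exponent_le (by norm_num) (by linarith)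
          have hF : a ^ (q - 1) - 1 ≤ ((q - 1) * 2 ^ q) * (a - 1) := by
            have : (q - 1) * a ^ (q - 1 - 1) * (a - 1) ≤ (q - 1) * 2 ^ q * (a - 1) := by
              apply mul_le_mul_of_nonneg_right _ (by linarith)
              exact mul_le_mul_of_nonneg_left hE (by linarith)
            linarith
          nlinarith [mul_le_mul_of_nonneg_right hF (by linarith : 0 ≤ a - 1)]
        · have hD := bern (q := q - 1) (a := a) (by linarith) ha
          have h5 : (1 - a ^ (q - 1)) * (1 - a) ≤ ((q - 1) * (1 - a)) * (1 - a) :=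
            mul_le_mul_of_nonneg_right (by linarith) (by linarith)
          have h6 : (q - 1) * (a - 1) ^ 2 ≤ (q - 1) * 2 ^ q * (a - 1) ^ 2 := by
            apply mul_le_mul_of_nonneg_right _ (by positivity)
            nlinarith
          nlinarith
      nlinarith [mul_le_mul_of_nonneg_left hC hq0.le]
    linarith

section Norms

variable {X : Type*} [AddCommGroup X] [Module ℝ X]

/-- A seminorm-like function, as in the frozen statement. -/
structure IsN (N : X → ℝ) : Prop where
  tri : ∀ x y : X, N (x + y) ≤ N x + N y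
  hom : ∀ (c : ℝ) (x : X), N (c • x) = |c| * N x

namespace IsN

variable {N : X → ℝ} (h : IsN N)
include h

theorem neg (x : X) : N (-x) = N x := by
  have := h.hom (-1) x
  simpa using this

theorem zero : N 0 = 0 := by
  have := h.hom 0 0
  simpa using this

theorem nonneg (x : X) : 0 ≤ N x := by
  have h1 := h.tri x (-x)
  rw [add_neg_cancel, h.neg, h.zero] at h1
  linarith

theorem sub_le (x y : X) : N (x - y) ≤ N x + N y := by
  rw [sub_eq_add_neg]
  have := h.tri x (-y)
  rwa [h.neg] at this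

theorem sub_comm (x y : X) : N (x - y) = N (y - x) := by
  rw [← neg_sub, h.neg]

theorem le_add_sub (x y : X) : N x ≤ N y + N (x - y) := by
  have := h.tri y (x - y)
  rwa [add_sub_cancel] at this

theorem homn {c : ℝ} (hc : 0 ≤ c) (x : X) : N (c • x) = c * N x := by
  rw [h.hom, abs_of_nonneg hc]

end IsN

/-- q-uniform convexity in power form from a modulus of power type -/
theorem convex_power {P : X → ℝ} (hP : IsN P) {q : ℝ} (hq : 2 ≤ q) {K : ℝ} (hK : 0 < K)
    (hδ : ∀ ε : ℝ, 0 < ε → ε ≤ 2 → ∀ x y : X, P x = 1 → P y = 1 →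
          ε ≤ P (x - y) → K * ε ^ q ≤ 1 - P ((1 / 2 : ℝ) • (x + y))) :
    ∃ c : ℝ, 0 < c ∧ ∀ u v : X,
      P ((1 / 2 : ℝ) • (u + v)) ^ q + c * P (u - v) ^ q ≤ (P u ^ q + P v ^ q) / 2 := by
  have hq0 : 0 < q := by linarith
  refine ⟨min ((1 / 8) ^ q) ((K / 2) * (1 / 4) ^ q), by positivity, ?_⟩
  -- reduce to P v ≤ P u
  suffices H : ∀ u v : X, P v ≤ P u → P ((1 / 2 : ℝ) • (u + v)) ^ q +
      min ((1 / 8) ^ q) ((K / 2) * (1 / 4) ^ q) * P (u - v) ^ q ≤ (P u ^ q + P v ^ q) / 2 by
    intro u v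
    rcases le_total (P v) (P u) with h | h
    · exact H u v h
    · have := H v u h
      rw [add_comm v u, hP.sub_comm v u, add_comm (P v ^ q)] at this
      exact this
  intro u v huv
  set R := P u with hR
  set S := P v with hS
  set D := P (u - v) with hD
  set m := P ((1 / 2 : ℝ) • (u + v)) with hm
  have hS0 : 0 ≤ S := hP.nonneg _
  have hR0 : 0 ≤ R := hP.nonneg _
  have hD0 : 0 ≤ D := hP.nonneg _
  have hm0 : 0 ≤ m := hP.nonneg _
  have hmle : m ≤ (R + S) / 2 := by
    rw [hm, hP.homn (by norm_num)]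
    have := hP.tri u v
    linarith
  have hDle : D ≤ R + S := hP.sub_le u v
  rcases le_or_gt S (R - D / 4) with hcase | hcase
  · have h1 := clarkson_scalar hq hS0 huv
    have h2 : m ^ q ≤ ((R + S) / 2) ^ q := Real.rpow_le_rpow hm0 hmle hq0.le
    have h3 : ((1 / 8) * D) ^ q ≤ ((R - S) / 2) ^ q :=
      Real.rpow_le_rpow (by positivity) (by linarith) hq0.le
    rw [Real.mul_rpow (by norm_num) hD0] at h3
    have h4 : min ((1 / 8) ^ q) ((K / 2) * (1 / 4) ^ q) * D ^ q ≤ (1 / 8) ^ q * D ^ q :=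
      mul_le_mul_of_nonneg_right (min_le_left _ _) (by positivity)
    linarith
  · -- D > 0, S > R/2 > 0
    have hDpos : 0 < D := by linarith
    have hRpos : 0 < R := by linarith
    have hS2 : R / 2 < S := by linarith
    have hSpos : 0 < S := by linarith
    set u' := (1 / R) • u with hu'
    set v' := (1 / S) • v with hv'
    have hPu' : P u' = 1 := by
      rw [hu', hP.homn (by positivity), ← hR]; field_simp
    have hPv' : P v' = 1 := by
      rw [hv', hP.homn (by positivity), ← hS]; field_simp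
    have hε1 : 0 < D / (2 * R) := by positivity
    have hε2 : D / (2 * R) ≤ 2 := by
      rw [div_le_iff₀ (by positivity)]; linarith
    have hdist : D / (2 * R) ≤ P (u' - v') := by
      -- (u - v)/R = (u' - v') + (v' - v/R)
      have h1 : (1 / R) • (u - v) = (u' - v') + ((R - S) / (R * S)) • v := by
        rw [hu', hv', smul_sub]
        have : ((R - S) / (R * S)) • v = (1 / S) • v - (1 / R) • v := by
          rw [← sub_smul]; congr 1; field_simp
        rw [this]; abel
      have h2 : P ((1 / R) • (u - v)) ≤ P (u' - v') + P (((R - S) / (R * S)) • v) := by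
        rw [h1]; exact hP.tri _ _
      rw [hP.homn (by positivity), hP.homn (div_nonneg (by linarith) (by positivity)), ← hD,
        ← hS] at h2
      have h3 : (R - S) / (R * S) * S = (R - S) / R := by field_simp
      have h4 : (R - S) / R ≤ (D / 4) / R := div_le_div_of_nonneg_right (by linarith) hRpos.le
      have h5 : D / (2 * R) + (D / 4) / R ≤ 1 / R * D := by
        have : 1 / R * D - (D / (2 * R) + (D / 4) / R) = D / (4 * R) := by
          field_simp; ring
        have : 0 ≤ D / (4 * R) := by positivity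
        linarith
      rw [h3] at h2
      linarith
    have hmod := hδ _ hε1 hε2 u' v' hPu' hPv' hdist
    set κ := K * (D / (2 * R)) ^ q with hκ
    have hκ0 : 0 ≤ κ := by positivity
    have hm' : m ≤ (R + S) / 2 - S * κ := by
      have h1 : (1 / 2 : ℝ) • (u + v) = ((R - S) / 2) • u' + S • ((1 / 2 : ℝ) • (u' + v')) := by
        have hu : u = R • u' := by
          rw [hu', smul_smul]; field_simp; simp
        have hv : v = S • v' := by
          rw [hv', smul_smul]; field_simp; simp
        conv_lhs => rw [hu, hv]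
        simp only [smul_add, smul_smul]
        rw [← add_assoc, ← add_smul]
        congr 2 <;> ring
      have h2 : m ≤ P (((R - S) / 2) • u') + P (S • ((1 / 2 : ℝ) • (u' + v'))) := by
        rw [hm, h1]; exact hP.tri _ _
      rw [hP.homn (by linarith), hP.homn hS0, hPu'] at h2
      have h3 : S * P ((1 / 2 : ℝ) • (u' + v')) ≤ S * (1 - κ) :=
        mul_le_mul_of_nonneg_left (by linarith) hS0
      linarith
    have hκ1 : κ ≤ 1 := by
      have := hP.nonneg ((1 / 2 : ℝ) • (u' + v'))
      linarith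
    set M := (R + S) / 2 with hM
    have hM0 : 0 < M := by positivity
    have hMR : M ≤ R := by linarith
    have hm'' : m ≤ M * (1 - κ / 2) := by
      have : M * (κ / 2) ≤ S * κ := by nlinarith
      linarith
    have h1 : m ^ q ≤ (M * (1 - κ / 2)) ^ q := Real.rpow_le_rpow hm0 hm'' hq0.le
    rw [Real.mul_rpow hM0.le (by linarith)] at h1
    have h2 : (1 - κ / 2) ^ q ≤ 1 - κ / 2 := by
      calc (1 - κ / 2) ^ q ≤ (1 - κ / 2) ^ (1 : ℝ) :=
            Real.rpow_le_rpow_of_exponent_ge (by linarith) (by linarith) (by linarith)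
        _ = 1 - κ / 2 := Real.rpow_one _
    have h3 : M ^ q * (1 - κ / 2) ^ q ≤ M ^ q * (1 - κ / 2) :=
      mul_le_mul_of_nonneg_left h2 (by positivity)
    have h4 : M ^ q ≤ (R ^ q + S ^ q) / 2 := pow_mid (by linarith) hR0 hS0
    have h5 : (K / 2) * (1 / 4) ^ q * D ^ q ≤ M ^ q * (κ / 2) := by
      have h6 : (R / 2) ^ q ≤ M ^ q := Real.rpow_le_rpow (by positivity) (by linarith) hq0.le
      have h7 : (K / 2) * (1 / 4) ^ q * D ^ q = (R / 2) ^ q * (κ / 2) := by
        rw [hκ]
        have h8 : (1 / 4) ^ q * D ^ q = (R / 2) ^ q * (D / (2 * R)) ^ q := by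
          rw [← Real.mul_rpow (by norm_num) hD0, ← Real.mul_rpow (by positivity) (by positivity)]
          congr 1
          field_simp
          ring
        calc (K / 2) * (1 / 4) ^ q * D ^ q = (K / 2) * ((1 / 4) ^ q * D ^ q) := by ring
          _ = (K / 2) * ((R / 2) ^ q * (D / (2 * R)) ^ q) := by rw [h8]
          _ = (R / 2) ^ q * (K * (D / (2 * R)) ^ q / 2) := by ring
      rw [h7]
      exact mul_le_mul_of_nonneg_right h6 (by positivity)
    have h9 : min ((1 / 8) ^ q) ((K / 2) * (1 / 4) ^ q) * D ^ q ≤ (K / 2) * (1 / 4) ^ q * D ^ q :=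
      mul_le_mul_of_nonneg_right (min_le_right _ _) (by positivity)
    nlinarith

/-- smoothness in power form from a modulus of power type -/
theorem smooth_power {Q : X → ℝ} (hQ : IsN Q) (hQ0 : ∀ x : X, Q x = 0 → x = 0) {p q : ℝ}
    (hp : 1 < p) (hp2 : p ≤ 2) (hq : 2 ≤ q) {K : ℝ} (hK : 0 < K)
    (hρ : ∀ t : ℝ, 0 < t → t ≤ 1 → ∀ x y : X, Q x = 1 → Q y = 1 →
          (Q (x + t • y) + Q (x - t • y)) / 2 - 1 ≤ K * t ^ p) :
    ∃ C : ℝ, 0 < C ∧ ∀ x z : X,
      (Q (x + z) ^ q + Q (x - z) ^ q) / 2 ≤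
        Q x ^ q + C * (Q z ^ p * Q x ^ (q - p) + Q z ^ q) := by
  have hq0 : 0 < q := by linarith
  set C1 : ℝ := q * K + q * (q - 1) * 2 ^ q with hC1
  have hC1pos : 0 < C1 := by
    have : 0 < q - 1 := by linarith
    positivity
  refine ⟨max (2 ^ q) C1, lt_max_of_lt_right hC1pos, ?_⟩
  intro x z
  set r := Q x with hr
  set s := Q z with hs
  have hr0 : 0 ≤ r := hQ.nonneg _
  have hs0 : 0 ≤ s := hQ.nonneg _
  have hmax0 : 0 < max (2 ^ q) C1 := lt_max_of_lt_right hC1pos
  rcases lt_or_ge r s with hcase | hcase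
  · -- s > r
    have h1 : Q (x + z) ≤ 2 * s := by
      have := hQ.tri x z
      linarith
    have h2 : Q (x - z) ≤ 2 * s := by
      have := hQ.sub_le x z
      linarith
    have h3 : Q (x + z) ^ q ≤ (2 * s) ^ q := Real.rpow_le_rpow (hQ.nonneg _) h1 hq0.le
    have h4 : Q (x - z) ^ q ≤ (2 * s) ^ q := Real.rpow_le_rpow (hQ.nonneg _) h2 hq0.le
    rw [Real.mul_rpow (by norm_num) hs0] at h3 h4
    have h5 : 2 ^ q * s ^ q ≤ max (2 ^ q) C1 * s ^ q :=
      mul_le_mul_of_nonneg_right (le_max_left _ _) (by positivity)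
    have h6 : 0 ≤ max (2 ^ q) C1 * (s ^ p * r ^ (q - p)) := by positivity
    have h7 : 0 ≤ r ^ q := by positivity
    nlinarith
  · rcases hs0.eq_or_lt with hs0' | hs0'
    · have hz : z = 0 := hQ0 z (by rw [← hs, ← hs0'])
      rw [hz]
      simp only [add_zero, sub_zero]
      rw [← hr]
      have : 0 ≤ max (2 ^ q) C1 * (s ^ p * r ^ (q - p) + s ^ q) := by positivity
      linarith
    · have hrpos : 0 < r := lt_of_lt_of_le hs0' hcase
      set t := s / r with ht
      have ht0 : 0 < t := by positivity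
      have ht1 : t ≤ 1 := by rw [ht, div_le_one hrpos]; exact hcase
      set x' := (1 / r) • x with hx'
      set z' := (1 / s) • z with hz'
      have hQx' : Q x' = 1 := by
        rw [hx', hQ.homn (by positivity), ← hr]; field_simp
      have hQz' : Q z' = 1 := by
        rw [hz', hQ.homn (by positivity), ← hs]; field_simp
      have hmod := hρ t ht0 ht1 x' z' hQx' hQz'
      set a := Q (x' + t • z') with ha
      set b := Q (x' - t • z') with hb
      have ha0 : 0 ≤ a := hQ.nonneg _
      have hb0 : 0 ≤ b := hQ.nonneg _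
      have htz : Q (t • z') = t := by rw [hQ.homn ht0.le, hQz', mul_one]
      have ha1 : a ≤ 1 + t := by
        have := hQ.tri x' (t • z')
        rw [hQx', htz] at this
        exact this
      have hb1 : b ≤ 1 + t := by
        have := hQ.sub_le x' (t • z')
        rw [hQx', htz] at this
        exact this
      have ha2 : 1 - t ≤ a := by
        have := hQ.le_add_sub x' (x' + t • z')
        rw [hQx'] at this
        have h2 : x' - (x' + t • z') = -(t • z') := by abel
        rw [h2, hQ.neg, htz] at this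
        linarith
      have hb2 : 1 - t ≤ b := by
        have := hQ.le_add_sub x' (x' - t • z')
        rw [hQx'] at this
        have h2 : x' - (x' - t • z') = (t • z') := by abel
        rw [h2, htz] at this
        linarith
      have hA := quad_upper hq ha0 (by linarith)
      have hB := quad_upper hq hb0 (by linarith)
      have hC2 : 0 ≤ q * (q - 1) * 2 ^ q := by
        have : 0 ≤ q - 1 := by linarith
        positivity
      have ha3 : (a - 1) ^ 2 ≤ t ^ 2 := by
        apply sq_le_sq'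
        · linarith
        · linarith
      have hb3 : (b - 1) ^ 2 ≤ t ^ 2 := by
        apply sq_le_sq'
        · linarith
        · linarith
      have ht2 : t ^ 2 ≤ t ^ p := by
        rw [← Real.rpow_two]
        exact Real.rpow_le_rpow_of_exponent_ge ht0 ht1 hp2
      have hsum : (a ^ q + b ^ q) / 2 ≤ 1 + C1 * t ^ p := by
        have e1 : (q * (q - 1) * 2 ^ q) * (a - 1) ^ 2 ≤ (q * (q - 1) * 2 ^ q) * t ^ p :=
          mul_le_mul_of_nonneg_left (ha3.trans ht2) hC2
        have e2 : (q * (q - 1) * 2 ^ q) * (b - 1) ^ 2 ≤ (q * (q - 1) * 2 ^ q) * t ^ p :=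
          mul_le_mul_of_nonneg_left (hb3.trans ht2) hC2
        have e3 : q * ((a + b) / 2 - 1) ≤ q * (K * t ^ p) :=
          mul_le_mul_of_nonneg_left hmod hq0.le
        rw [hC1]
        nlinarith
      have hxa : Q (x + z) = r * a := by
        rw [ha, ← hQ.homn hr0]
        congr 1
        rw [smul_add, hx', hz', smul_smul, smul_smul, smul_smul]
        have e1 : r * (1 / r) = 1 := by field_simp
        have e2 : r * t * (1 / s) = 1 := by rw [ht]; field_simp
        rw [e1, e2, one_smul, one_smul]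
      have hxb : Q (x - z) = r * b := by
        rw [hb, ← hQ.homn hr0]
        congr 1
        rw [smul_sub, hx', hz', smul_smul, smul_smul, smul_smul]
        have e1 : r * (1 / r) = 1 := by field_simp
        have e2 : r * t * (1 / s) = 1 := by rw [ht]; field_simp
        rw [e1, e2, one_smul, one_smul]
      rw [hxa, hxb, Real.mul_rpow hr0 ha0, Real.mul_rpow hr0 hb0]
      have hrt : r ^ q * t ^ p = s ^ p * r ^ (q - p) := by
        rw [ht, Real.div_rpow hs0 hr0, Real.rpow_sub hrpos]
        field_simp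
      have h8 : r ^ q * ((a ^ q + b ^ q) / 2) ≤ r ^ q * (1 + C1 * t ^ p) :=
        mul_le_mul_of_nonneg_left hsum (by positivity)
      have h9 : C1 * (s ^ p * r ^ (q - p)) ≤ max (2 ^ q) C1 * (s ^ p * r ^ (q - p)) :=
        mul_le_mul_of_nonneg_right (le_max_right _ _) (by positivity)
      have h10 : 0 ≤ max (2 ^ q) C1 * s ^ q := by positivity
      have h11 : r ^ q * (1 + C1 * t ^ p) = r ^ q + C1 * (s ^ p * r ^ (q - p)) := by
        rw [← hrt]; ring
      linarith

end Norms

end Pool.Agent.Work.MP_9fe0db_an
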