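import Mathlib
import Pool.Agent.Work.MP_9fe0db_an.Core

/-!
# Exponents outside the range `p ≤ 2 ≤ q`

In dimension at least two the modulus of convexity cannot have a power type `q < 2` and the
modulus of smoothness cannot have a power type `p > 2`; in dimension at most one every exponent is
possible for every norm.
-/

set_option autoImplicit false

namespace Pool.Agent.Work.MP_9fe0db_an

variable {X : Type*} [AddCommGroup X] [Module ℝ X]

/-- second differences along the line `a + t b` -/
noncomputable def sd (N : X → ℝ) (a b : X) (t h : ℝ) : ℝ :=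
  N (a + (t + h) • b) + N (a + (t - h) • b) - 2 * N (a + t • b)

theorem sd_half (N : X → ℝ) (a b : X) (t h : ℝ) :
    sd N a b t h = sd N a b (t + h / 2) (h / 2) + 2 * sd N a b t (h / 2)
      + sd N a b (t - h / 2) (h / 2) := by
  unfold sd
  have e1 : t + h / 2 + h / 2 = t + h := by ring
  have e2 : t + h / 2 - h / 2 = t := by ring
  have e3 : t - h / 2 + h / 2 = t := by ring
  have e4 : t - h / 2 - h / 2 = t - h := by ring
  rw [e1, e2, e3, e4]
  ring

/-- the lower bound for second differences given by the modulus of convexity -/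
theorem sd_lower {N : X → ℝ} (hN : IsN N) {m M : ℝ} (hm : 0 < m) (a b : X)
    (hlow : ∀ s r : ℝ, m * max |s| |r| ≤ N (s • a + r • b))
    (hM : N a + N b ≤ M)
    {q K : ℝ} (hK : 0 < K)
    (hδ : ∀ ε : ℝ, 0 < ε → ε ≤ 2 → ∀ x y : X, N x = 1 → N y = 1 → ε ≤ N (x - y) →
      K * ε ^ q ≤ 1 - N ((1 / 2 : ℝ) • (x + y)))
    {t h : ℝ} (hh : 0 < h) (hth : |t| + h ≤ 1) :
    2 * m * K * (m * h / M) ^ q ≤ sd N a b t h := by
  have hb0 := hN.nonneg b
  have hma : m ≤ N a := by
    have := hlow 1 0
    simpa using this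
  have hMpos : 0 < M := by linarith
  have hmM : m ≤ M := by linarith
  have bound : ∀ s : ℝ, |s| ≤ 1 → m ≤ N (a + s • b) ∧ N (a + s • b) ≤ M := by
    intro s hs
    constructor
    · have h1 := hlow 1 s
      rw [one_smul, abs_one, max_eq_left hs, mul_one] at h1
      exact h1
    · have h1 := hN.tri a (s • b)
      rw [hN.hom] at h1
      nlinarith
  have ht1 : |t| ≤ 1 := by linarith
  have hp1 : |t + h| ≤ 1 := by
    have := abs_add_le t h
    rw [abs_of_pos hh] at this
    linarith
  have hp2 : |t - h| ≤ 1 := by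
    have := abs_sub t h
    rw [abs_of_pos hh] at this
    linarith
  obtain ⟨hα1, hα2⟩ := bound (t + h) hp1
  obtain ⟨hβ1, hβ2⟩ := bound (t - h) hp2
  set α := N (a + (t + h) • b) with hα
  set β := N (a + (t - h) • b) with hβ
  have hα0 : 0 < α := by linarith
  have hβ0 : 0 < β := by linarith
  set u : X := α⁻¹ • (a + (t + h) • b) with hu
  set v : X := β⁻¹ • (a + (t - h) • b) with hv
  have hu1 : N u = 1 := by
    rw [hu, hN.homn (by positivity), ← hα]; field_simp
  have hv1 : N v = 1 := by
    rw [hv, hN.homn (by positivity), ← hβ]; field_simp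
  -- the distance of u and v
  have hε0 : 0 < m * h / M := by positivity
  have hh1 : h ≤ 1 := by have := abs_nonneg t; linarith
  have hε2 : m * h / M ≤ 2 := by
    rw [div_le_iff₀ hMpos]
    nlinarith
  have huv : m * h / M ≤ N (u - v) := by
    have e : u - v = (α⁻¹ - β⁻¹) • a + (t * (α⁻¹ - β⁻¹) + h * (α⁻¹ + β⁻¹)) • b := by
      rw [hu, hv]
      module
    rw [e]
    refine le_trans ?_ (hlow _ _)
    rw [mul_div_assoc]
    refine mul_le_mul_of_nonneg_left ?_ hm.le
    set s := α⁻¹ - β⁻¹ with hs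
    set r := t * s + h * (α⁻¹ + β⁻¹) with hr
    have h1 : M⁻¹ ≤ α⁻¹ := inv_anti₀ hα0 hα2
    have h2 : M⁻¹ ≤ β⁻¹ := inv_anti₀ hβ0 hβ2
    have h3 : h * (α⁻¹ + β⁻¹) ≤ |r| + |s| := by
      have e1 : h * (α⁻¹ + β⁻¹) = r - t * s := by rw [hr]; ring
      have e2 : r - t * s ≤ |r| + |t| * |s| := by
        have := le_abs_self r
        have h5 := neg_abs_le (t * s)
        rw [abs_mul] at h5
        linarith
      have e3 : |t| * |s| ≤ |s| := by
        have := abs_nonneg s
        nlinarith
      linarith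
    have h4 : |r| + |s| ≤ 2 * max |s| |r| := by
      have := le_max_left |s| |r|
      have := le_max_right |s| |r|
      linarith
    have h5 : h * (2 * M⁻¹) ≤ h * (α⁻¹ + β⁻¹) :=
      mul_le_mul_of_nonneg_left (by linarith) hh.le
    rw [div_eq_mul_inv]
    linarith
  have hkey := hδ _ hε0 hε2 u v hu1 hv1 huv
  have hKε : 0 < K * (m * h / M) ^ q := mul_pos hK (Real.rpow_pos_of_pos hε0 q)
  have hxu : α • u = a + (t + h) • b := by
    rw [hu, smul_smul, mul_inv_cancel₀ hα0.ne', one_smul]
  have hxv : β • v = a + (t - h) • b := by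
    rw [hv, smul_smul, mul_inv_cancel₀ hβ0.ne', one_smul]
  have h2x : N ((2 : ℝ) • (a + t • b)) = 2 * N (a + t • b) := hN.homn (by norm_num) _
  have hsum : (2 : ℝ) • (a + t • b) = α • u + β • v := by
    rw [hxu, hxv]
    module
  have goal2 : 2 * N (a + t • b) ≤ α + β - 2 * m * (K * (m * h / M) ^ q) := by
    rw [← h2x, hsum]
    rcases le_total β α with hle | hle
    · have e : α • u + β • v = (2 * β) • ((1 / 2 : ℝ) • (u + v)) + (α - β) • u := by module
      rw [e]
      have h1 := hN.tri ((2 * β) • ((1 / 2 : ℝ) • (u + v))) ((α - β) • u)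
      rw [hN.homn (by positivity) ((1 / 2 : ℝ) • (u + v)), hN.homn (by linarith) u, hu1] at h1
      have h2 : 2 * β * N ((1 / 2 : ℝ) • (u + v)) ≤ 2 * β * (1 - K * (m * h / M) ^ q) :=
        mul_le_mul_of_nonneg_left (by linarith) (by positivity)
      have h3 : 2 * m * (K * (m * h / M) ^ q) ≤ 2 * β * (K * (m * h / M) ^ q) :=
        mul_le_mul_of_nonneg_right (by linarith) hKε.le
      linarith
    · have e : α • u + β • v = (2 * α) • ((1 / 2 : ℝ) • (u + v)) + (β - α) • v := by module
      rw [e]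
      have h1 := hN.tri ((2 * α) • ((1 / 2 : ℝ) • (u + v))) ((β - α) • v)
      rw [hN.homn (by positivity) ((1 / 2 : ℝ) • (u + v)), hN.homn (by linarith) v, hv1] at h1
      have h2 : 2 * α * N ((1 / 2 : ℝ) • (u + v)) ≤ 2 * α * (1 - K * (m * h / M) ^ q) :=
        mul_le_mul_of_nonneg_left (by linarith) (by positivity)
      have h3 : 2 * m * (K * (m * h / M) ^ q) ≤ 2 * α * (K * (m * h / M) ^ q) :=
        mul_le_mul_of_nonneg_right (by linarith) hKε.le
      linarith
  unfold sd
  rw [← hα, ← hβ]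
  linarith

/-- there is no power type `q < 2` for the modulus of convexity in dimension at least two -/
theorem no_convex_lt_two {N : X → ℝ} (hN : IsN N) {m : ℝ} (hm : 0 < m) (a b : X)
    (hlow : ∀ s r : ℝ, m * max |s| |r| ≤ N (s • a + r • b))
    {q K : ℝ} (hq : q < 2) (hK : 0 < K)
    (hδ : ∀ ε : ℝ, 0 < ε → ε ≤ 2 → ∀ x y : X, N x = 1 → N y = 1 → ε ≤ N (x - y) →
      K * ε ^ q ≤ 1 - N ((1 / 2 : ℝ) • (x + y))) : False := by
  set M := N a + N b with hM
  have hb0 := hN.nonneg b
  have hma : m ≤ N a := by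
    have := hlow 1 0
    simpa using this
  have hMpos : 0 < M := by linarith
  set c := 2 * m * K * (m / M) ^ q with hc
  have hc0 : 0 < c := by positivity
  have base : ∀ t h : ℝ, 0 < h → |t| + h ≤ 1 → c * h ^ q ≤ sd N a b t h := by
    intro t h hh hth
    have h1 := sd_lower hN hm a b hlow le_rfl hK hδ hh hth
    have h2 : (m * h / (N a + N b)) ^ q = (m / M) ^ q * h ^ q := by
      rw [← Real.mul_rpow (by positivity) hh.le]
      congr 1
      rw [hM]; ring
    rw [h2] at h1
    rw [hc]
    linarith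
  set r := 4 / (2 : ℝ) ^ q with hr
  have hr1 : 1 < r := by
    rw [hr, lt_div_iff₀ (by positivity), one_mul]
    have : (2 : ℝ) ^ q < (2 : ℝ) ^ (2 : ℝ) := Real.rpow_lt_rpow_of_exponent_lt (by norm_num) hq
    rw [show (2 : ℝ) ^ (2 : ℝ) = 4 by norm_num] at this
    exact this
  have step : ∀ (n : ℕ) (t h : ℝ), 0 < h → |t| + h ≤ 1 →
      r ^ n * (c * h ^ q) ≤ sd N a b t h := by
    intro n
    induction n with
    | zero => intro t h hh hth; simpa using base t h hh hth
    | succ n ih =>
      intro t h hh hth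
      have hh2 : 0 < h / 2 := by linarith
      have t1 : |t + h / 2| + h / 2 ≤ 1 := by
        have := abs_add_le t (h / 2)
        rw [abs_of_pos hh2] at this
        linarith
      have t2 : |t - h / 2| + h / 2 ≤ 1 := by
        have := abs_sub t (h / 2)
        rw [abs_of_pos hh2] at this
        linarith
      have i1 := ih _ _ hh2 t1
      have i2 := ih t _ hh2 (by linarith)
      have i3 := ih _ _ hh2 t2
      rw [sd_half]
      have e : r ^ (n + 1) * (c * h ^ q) = 4 * (r ^ n * (c * (h / 2) ^ q)) := by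
        rw [Real.div_rpow hh.le (by norm_num), pow_succ, hr]
        field_simp
      linarith
  obtain ⟨n, hn⟩ := pow_unbounded_of_one_lt (sd N a b 0 1 / c) hr1
  have h1 := step n 0 1 one_pos (by simp)
  rw [Real.one_rpow, mul_one] at h1
  rw [div_lt_iff₀ hc0] at hn
  linarith

/-- there is no power type `p > 2` for the modulus of smoothness in dimension at least two -/
theorem no_smooth_gt_two {N : X → ℝ} (hN : IsN N) {m : ℝ} (hm : 0 < m) (a b : X)
    (hlow : ∀ s r : ℝ, m * max |s| |r| ≤ N (s • a + r • b))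
    {p K : ℝ} (hp : 2 < p) (hK : 0 < K)
    (hρ : ∀ τ : ℝ, 0 < τ → ∀ x y : X, N x = 1 → N y = 1 →
      (N (x + τ • y) + N (x - τ • y)) / 2 - 1 ≤ K * τ ^ p) : False := by
  have hb0 : 0 < N b := by
    have := hlow 0 1
    simp at this
    linarith
  set C := 2 * K * N b ^ p * m ^ (1 - p) with hC
  have hC0 : 0 < C := by positivity
  have base : ∀ t h : ℝ, 0 < h → sd N a b t h ≤ C * h ^ p := by
    intro t h hh
    set x := a + t • b with hx
    have hxm : m ≤ N x := by
      have h1 := hlow 1 t
      rw [one_smul, abs_one] at h1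
      have h2 : m * 1 ≤ m * max 1 |t| := mul_le_mul_of_nonneg_left (le_max_left _ _) hm.le
      linarith
    have hx0 : 0 < N x := by linarith
    set τ := h * N b / N x with hτ
    have hτ0 : 0 < τ := by positivity
    set u := (N x)⁻¹ • x with hu
    set v := (N b)⁻¹ • b with hv
    have hu1 : N u = 1 := by rw [hu, hN.homn (by positivity)]; field_simp
    have hv1 : N v = 1 := by rw [hv, hN.homn (by positivity)]; field_simp
    have h1 := hρ τ hτ0 u v hu1 hv1
    have hxu : N x • u = x := by
      rw [hu, smul_smul, mul_inv_cancel₀ hx0.ne', one_smul]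
    have hbv : (N x * τ) • v = h • b := by
      rw [hv, smul_smul]
      congr 1
      rw [hτ]
      field_simp
    have e1 : a + (t + h) • b = N x • (u + τ • v) := by
      rw [smul_add, hxu, smul_smul, hbv, hx]
      module
    have e2 : a + (t - h) • b = N x • (u - τ • v) := by
      rw [smul_sub, hxu, smul_smul, hbv, hx]
      module
    have h2 : sd N a b t h = N x * (N (u + τ • v) + N (u - τ • v) - 2) := by
      unfold sd
      rw [e1, e2, hN.homn hx0.le, hN.homn hx0.le]
      ring
    rw [h2]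
    have h3 : N x * (N (u + τ • v) + N (u - τ • v) - 2) ≤ N x * (2 * (K * τ ^ p)) :=
      mul_le_mul_of_nonneg_left (by linarith) hx0.le
    refine h3.trans ?_
    have h4 : τ ^ p = h ^ p * N b ^ p / N x ^ p := by
      rw [hτ, Real.div_rpow (by positivity) hx0.le, Real.mul_rpow hh.le hb0.le]
    have h5 : N x * (1 / N x ^ p) = N x ^ (1 - p) := by
      rw [Real.rpow_sub hx0, Real.rpow_one]
      ring
    have h6 : N x ^ (1 - p) ≤ m ^ (1 - p) :=
      Real.rpow_le_rpow_of_nonpos hm hxm (by linarith)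
    have h7 : N x * (2 * (K * τ ^ p)) = 2 * K * N b ^ p * h ^ p * (N x * (1 / N x ^ p)) := by
      rw [h4]
      ring
    rw [h7, h5, hC]
    have h8 : 0 ≤ 2 * K * N b ^ p * h ^ p := by positivity
    have h9 := mul_le_mul_of_nonneg_left h6 h8
    linarith
  set r := 4 / (2 : ℝ) ^ p with hr
  have hr0 : 0 ≤ r := by positivity
  have hr1 : r < 1 := by
    rw [hr, div_lt_iff₀ (by positivity), one_mul]
    have : (2 : ℝ) ^ (2 : ℝ) < (2 : ℝ) ^ p := Real.rpow_lt_rpow_of_exponent_lt (by norm_num) hp
    rw [show (2 : ℝ) ^ (2 : ℝ) = 4 by norm_num] at this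
    exact this
  have step : ∀ (n : ℕ) (t h : ℝ), 0 < h → sd N a b t h ≤ r ^ n * (C * h ^ p) := by
    intro n
    induction n with
    | zero => intro t h hh; simpa using base t h hh
    | succ n ih =>
      intro t h hh
      have hh2 : 0 < h / 2 := by linarith
      have i1 := ih (t + h / 2) _ hh2
      have i2 := ih t _ hh2
      have i3 := ih (t - h / 2) _ hh2
      rw [sd_half]
      have e : r ^ (n + 1) * (C * h ^ p) = 4 * (r ^ n * (C * (h / 2) ^ p)) := by
        rw [Real.div_rpow hh.le (by norm_num), pow_succ, hr]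
        field_simp
      linarith
  have hle : ∀ h : ℝ, 0 < h → sd N a b 0 h ≤ 0 := by
    intro h hh
    have hlim : Filter.Tendsto (fun n : ℕ => r ^ n * (C * h ^ p)) Filter.atTop (nhds (0 * (C * h ^ p))) :=
      (tendsto_pow_atTop_nhds_zero_of_lt_one hr0 hr1).mul_const _
    rw [zero_mul] at hlim
    exact ge_of_tendsto' hlim fun n => step n 0 h hh
  set H := 2 * N a / N b + 1 with hH
  have ha0 := hN.nonneg a
  have hH0 : 0 < H := by positivity
  have h1 := hle H hH0
  unfold sd at h1
  have e0 : a + (0 : ℝ) • b = a := by simp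
  rw [zero_add, zero_sub, e0] at h1
  have h2 : H * N b - N a ≤ N (a + H • b) := by
    have h3 := hN.tri (a + H • b) (-a)
    rw [hN.neg, add_neg_cancel_comm, hN.homn hH0.le] at h3
    linarith
  have h3 : H * N b - N a ≤ N (a + (-H) • b) := by
    have h3 := hN.tri (a + (-H) • b) (-a)
    rw [hN.neg, add_neg_cancel_comm, hN.hom, abs_neg, abs_of_pos hH0] at h3
    linarith
  have h4 : H * N b = 2 * N a + N b := by
    rw [hH]; field_simp
  linarith

/-- in dimension at most one two vectors of norm one agree up to sign -/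
theorem low_dim {N : X → ℝ} (hN : IsN N)
    (h : ∀ a b : X, ∃ s r : ℝ, s • a + r • b = 0 ∧ ¬ (s = 0 ∧ r = 0))
    {u v : X} (hu : N u = 1) (hv : N v = 1) : v = u ∨ v = -u := by
  obtain ⟨s, r, h1, h2⟩ := h u v
  have h3 : s • u = -(r • v) := eq_neg_of_add_eq_zero_left h1
  have h4 : |s| = |r| := by
    have := congrArg N h3
    rw [hN.neg, hN.hom, hN.hom, hu, hv, mul_one, mul_one] at this
    exact this
  have hr : r ≠ 0 := by
    intro hr
    apply h2
    rw [hr, abs_zero, abs_eq_zero] at h4
    exact ⟨h4, hr⟩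
  rcases abs_eq_abs.1 h4 with h5 | h5
  · right
    rw [h5] at h3
    have h6 : r • (u + v) = 0 := by rw [smul_add, h3]; simp
    have h7 := (smul_eq_zero.1 h6).resolve_left hr
    exact eq_neg_of_add_eq_zero_right h7
  · left
    rw [h5] at h3
    have h6 : r • (v - u) = 0 := by
      rw [smul_sub]
      have : r • u = r • v := by
        have := congrArg Neg.neg h3
        simpa using this
      rw [this, sub_self]
    have h7 := (smul_eq_zero.1 h6).resolve_left hr
    exact sub_eq_zero.1 h7

theorem low_smooth {N : X → ℝ} (hN : IsN N)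
    (h : ∀ a b : X, ∃ s r : ℝ, s • a + r • b = 0 ∧ ¬ (s = 0 ∧ r = 0))
    {p : ℝ} (hp : 1 < p) {τ : ℝ} (hτ : 0 < τ) {u v : X} (hu : N u = 1) (hv : N v = 1) :
    (N (u + τ • v) + N (u - τ • v)) / 2 - 1 ≤ 1 * τ ^ p := by
  have key : (|1 + τ| + |1 - τ|) / 2 - 1 ≤ 1 * τ ^ p := by
    rw [one_mul, abs_of_pos (by linarith : 0 < 1 + τ)]
    rcases le_total τ 1 with h1 | h1
    · rw [abs_of_nonneg (by linarith)]
      have : 0 ≤ τ ^ p := Real.rpow_nonneg hτ.le p
      linarith
    · rw [abs_of_nonpos (by linarith)]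
      have : τ ^ (1 : ℝ) ≤ τ ^ p := Real.rpow_le_rpow_of_exponent_le h1 hp.le
      rw [Real.rpow_one] at this
      linarith
  have e1 : N (u + τ • u) = |1 + τ| := by
    rw [show u + τ • u = (1 + τ) • u by module, hN.hom, hu, mul_one]
  have e2 : N (u - τ • u) = |1 - τ| := by
    rw [show u - τ • u = (1 - τ) • u by module, hN.hom, hu, mul_one]
  rcases low_dim hN h hu hv with rfl | rfl
  · rw [e1, e2]; exact key
  · rw [smul_neg, sub_neg_eq_add, ← sub_eq_add_neg, e1, e2, add_comm]
    exact key

end Pool.Agent.Work.MP_9fe0db_an
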