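import Mathlib
import Pool.Agent.Work.MP_9fe0db_an.Core

set_option autoImplicit false

namespace Pool.Agent.Work.MP_9fe0db_an

section Hull

variable {X : Type*} [AddCommGroup X] [Module ℝ X]

/-- The class of convex functions below `g` that are uniformly midpoint convex with
modulus `w`. -/
structure Adm (g w h : X → ℝ) : Prop where
  le : ∀ x, h x ≤ g x
  conv : ∀ (x y : X) (a b : ℝ), 0 ≤ a → 0 ≤ b → a + b = 1 → h (a • x + b • y) ≤ a * h x + b * h y
  mid : ∀ x y : X, h x + w y ≤ (h (x + y) + h (x - y)) / 2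

/-- The largest member of the class. -/
noncomputable def hull (g w : X → ℝ) (x : X) : ℝ := sSup {r : ℝ | ∃ h : X → ℝ, Adm g w h ∧ h x = r}

theorem le_hull {g w h : X → ℝ} (hh : Adm g w h) (x : X) : h x ≤ hull g w x :=
  le_csSup ⟨g x, by rintro _ ⟨k, hk, rfl⟩; exact hk.le x⟩ ⟨h, hh, rfl⟩

theorem hull_le {g w : X → ℝ} (hne : ∃ h, Adm g w h) {x : X} {r : ℝ}
    (H : ∀ h, Adm g w h → h x ≤ r) : hull g w x ≤ r := by
  obtain ⟨h, hh⟩ := hne
  refine csSup_le ⟨h x, h, hh, rfl⟩ ?_
  rintro _ ⟨k, hk, rfl⟩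
  exact H k hk

theorem adm_hull {g w : X → ℝ} (hne : ∃ h, Adm g w h) : Adm g w (hull g w) where
  le x := hull_le hne fun h hh => hh.le x
  conv x y a b ha hb hab := by
    apply hull_le hne
    intro h hh
    have h1 := hh.conv x y a b ha hb hab
    have h2 := mul_le_mul_of_nonneg_left (le_hull hh x) ha
    have h3 := mul_le_mul_of_nonneg_left (le_hull hh y) hb
    linarith
  mid x y := by
    have : hull g w x ≤ (hull g w (x + y) + hull g w (x - y)) / 2 - w y := by
      apply hull_le hne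
      intro h hh
      have h1 := hh.mid x y
      have h2 := le_hull hh (x + y)
      have h3 := le_hull hh (x - y)
      linarith
    linarith

/-- Key translation argument: second differences of the hull are controlled by those of `g`. -/
theorem hull_smooth {g w f : X → ℝ} (hf : Adm g (fun y => 2 * w y) f) (hfh : Adm g w f)
    (hf0 : ∀ x, 0 ≤ f x) (hw : ∀ y, 0 ≤ w y) {z : X} {κ : ℝ} (hκ : 0 ≤ κ)
    (hg : ∀ u : X, (g (u + z) + g (u - z)) / 2 ≤ g u + κ * (1 + g u)) (x : X) :
    (hull g w (x + z) + hull g w (x - z)) / 2 ≤ hull g w x + 2 * κ * (1 + hull g w x) := by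
  have hne : ∃ h, Adm g w h := ⟨f, hfh⟩
  have hH := adm_hull hne
  set H := hull g w with hHdef
  have hk1 : 0 < 1 + 2 * κ := by linarith
  -- the competitor
  let k : X → ℝ := fun u => (1 + 2 * κ)⁻¹ * ((H (u + z) + H (u - z)) / 2 + 2 * κ * (f u / 2) - κ)
  have hk : Adm g w k := by
    refine ⟨?_, ?_, ?_⟩
    · intro u
      have h1 := hH.le (u + z)
      have h2 := hH.le (u - z)
      have h3 := hg u
      have h4 := hf.le u
      have h5 : (H (u + z) + H (u - z)) / 2 + 2 * κ * (f u / 2) - κ ≤ (1 + 2 * κ) * g u := by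
        nlinarith [mul_le_mul_of_nonneg_left h4 hκ]
      have h6 := mul_le_mul_of_nonneg_left h5 (inv_nonneg.2 hk1.le)
      rwa [inv_mul_cancel_left₀ hk1.ne'] at h6
    · intro u v a b ha hb hab
      have h1 := hH.conv (u + z) (v + z) a b ha hb hab
      have h2 := hH.conv (u - z) (v - z) a b ha hb hab
      have h3 := hf.conv u v a b ha hb hab
      have e1 : a • (u + z) + b • (v + z) = a • u + b • v + z := by
        have : z = a • z + b • z := by rw [← add_smul, hab, one_smul]
        conv_rhs => rw [this]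
        simp only [smul_add]; abel
      have e2 : a • (u - z) + b • (v - z) = a • u + b • v - z := by
        have : z = a • z + b • z := by rw [← add_smul, hab, one_smul]
        conv_rhs => rw [this]
        simp only [smul_sub]; abel
      rw [e1] at h1
      rw [e2] at h2
      have h4 : (H (a • u + b • v + z) + H (a • u + b • v - z)) / 2
          + 2 * κ * (f (a • u + b • v) / 2) - κ ≤
          a * ((H (u + z) + H (u - z)) / 2 + 2 * κ * (f u / 2) - κ) +
          b * ((H (v + z) + H (v - z)) / 2 + 2 * κ * (f v / 2) - κ) := by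
        have h5 := mul_le_mul_of_nonneg_left h3 hκ
        have h6 : κ = a * κ + b * κ := by rw [← add_mul, hab, one_mul]
        nlinarith
      have h7 := mul_le_mul_of_nonneg_left h4 (inv_nonneg.2 hk1.le)
      show (1 + 2 * κ)⁻¹ * _ ≤ a * ((1 + 2 * κ)⁻¹ * _) + b * ((1 + 2 * κ)⁻¹ * _)
      calc _ ≤ _ := h7
        _ = _ := by ring
    · intro u y
      have h1 := hH.mid (u + z) y
      have h2 := hH.mid (u - z) y
      have h3 := hf.mid u y
      have e1 : u + z + y = u + y + z := by abel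
      have e2 : u + z - y = u - y + z := by abel
      have e3 : u - z + y = u + y - z := by abel
      have e4 : u - z - y = u - y - z := by abel
      rw [e1, e2] at h1
      rw [e3, e4] at h2
      have h4 : (H (u + z) + H (u - z)) / 2 + 2 * κ * (f u / 2) - κ + (1 + 2 * κ) * w y ≤
          (((H (u + y + z) + H (u + y - z)) / 2 + 2 * κ * (f (u + y) / 2) - κ) +
          ((H (u - y + z) + H (u - y - z)) / 2 + 2 * κ * (f (u - y) / 2) - κ)) / 2 := by
        have h5 := mul_le_mul_of_nonneg_left h3 hκ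
        nlinarith
      have h7 := mul_le_mul_of_nonneg_left h4 (inv_nonneg.2 hk1.le)
      show (1 + 2 * κ)⁻¹ * _ + w y ≤ ((1 + 2 * κ)⁻¹ * _ + (1 + 2 * κ)⁻¹ * _) / 2
      have h8 : (1 + 2 * κ)⁻¹ * ((H (u + z) + H (u - z)) / 2 + 2 * κ * (f u / 2) - κ +
          (1 + 2 * κ) * w y) =
          (1 + 2 * κ)⁻¹ * ((H (u + z) + H (u - z)) / 2 + 2 * κ * (f u / 2) - κ) + w y := by
        rw [mul_add, inv_mul_cancel_left₀ hk1.ne']
      rw [h8] at h7
      calc _ ≤ _ := h7
        _ = _ := by ring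
  have h1 : k x ≤ H x := le_hull hk x
  have h2 : (H (x + z) + H (x - z)) / 2 + 2 * κ * (f x / 2) - κ ≤ (1 + 2 * κ) * H x := by
    have h3 := mul_le_mul_of_nonneg_left h1 hk1.le
    simp only [k] at h3
    rwa [mul_inv_cancel_left₀ hk1.ne'] at h3
  have h4 : 0 ≤ κ * f x := mul_nonneg hκ (hf0 x)
  nlinarith

/-- homogeneity of the hull -/
theorem hull_hom {g w : X → ℝ} {q : ℝ} (hne : ∃ h, Adm g w h)
    (hg : ∀ (c : ℝ) (x : X), 0 < |c| → g (c • x) = |c| ^ q * g x)
    (hw : ∀ (c : ℝ) (x : X), 0 < |c| → w (c • x) = |c| ^ q * w x) {c : ℝ} (hc : 0 < |c|) (x : X) :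
    hull g w (c • x) = |c| ^ q * hull g w x := by
  have key : ∀ (c : ℝ) (x : X), 0 < |c| → hull g w (c • x) ≤ |c| ^ q * hull g w x := by
    intro c x hc
    have hcq : 0 < |c| ^ q := Real.rpow_pos_of_pos hc q
    apply hull_le hne
    intro h hh
    let k : X → ℝ := fun u => (|c| ^ q)⁻¹ * h (c • u)
    have hk : Adm g w k := by
      refine ⟨?_, ?_, ?_⟩
      · intro u
        have h1 := hh.le (c • u)
        rw [hg c u hc] at h1
        have h6 := mul_le_mul_of_nonneg_left h1 (inv_nonneg.2 hcq.le)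
        rwa [inv_mul_cancel_left₀ hcq.ne'] at h6
      · intro u v a b ha hb hab
        have h1 := hh.conv (c • u) (c • v) a b ha hb hab
        have e : a • c • u + b • c • v = c • (a • u + b • v) := by
          rw [smul_add, smul_comm a c, smul_comm b c]
        rw [e] at h1
        have h7 := mul_le_mul_of_nonneg_left h1 (inv_nonneg.2 hcq.le)
        show (|c| ^ q)⁻¹ * _ ≤ a * ((|c| ^ q)⁻¹ * _) + b * ((|c| ^ q)⁻¹ * _)
        calc _ ≤ _ := h7
          _ = _ := by ring
      · intro u y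
        have h1 := hh.mid (c • u) (c • y)
        rw [hw c y hc, ← smul_add, ← smul_sub] at h1
        have h7 := mul_le_mul_of_nonneg_left h1 (inv_nonneg.2 hcq.le)
        rw [mul_add, inv_mul_cancel_left₀ hcq.ne'] at h7
        show (|c| ^ q)⁻¹ * _ + w y ≤ ((|c| ^ q)⁻¹ * _ + (|c| ^ q)⁻¹ * _) / 2
        calc _ ≤ _ := h7
          _ = _ := by ring
    have h1 := le_hull hk x
    have h2 := mul_le_mul_of_nonneg_left h1 hcq.le
    simp only [k] at h2
    rwa [mul_inv_cancel_left₀ hcq.ne'] at h2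
  apply le_antisymm (key c x hc)
  have hc0 : c ≠ 0 := abs_pos.1 hc
  have hc' : 0 < |c⁻¹| := abs_pos.2 (inv_ne_zero hc0)
  have h1 := key c⁻¹ (c • x) hc'
  rw [inv_smul_smul₀ hc0, abs_inv, Real.inv_rpow (abs_nonneg c)] at h1
  have hcq : 0 < |c| ^ q := Real.rpow_pos_of_pos hc q
  have h2 := mul_le_mul_of_nonneg_left h1 hcq.le
  rwa [mul_inv_cancel_left₀ hcq.ne'] at h2

/-- A nonnegative convex function that is homogeneous of degree q gives a subadditive root. -/
theorem root_tri {H : X → ℝ} {q : ℝ} (hq : 1 ≤ q) (hH0 : ∀ x, 0 ≤ H x)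
    (hzero : ∀ x, H x = 0 → x = 0) (h00 : H 0 = 0)
    (hconv : ∀ (x y : X) (a b : ℝ), 0 ≤ a → 0 ≤ b → a + b = 1 →
      H (a • x + b • y) ≤ a * H x + b * H y)
    (hhom : ∀ (c : ℝ) (x : X), 0 < |c| → H (c • x) = |c| ^ q * H x) (x y : X) :
    (H (x + y)) ^ (1 / q) ≤ (H x) ^ (1 / q) + (H y) ^ (1 / q) := by
  have hq0 : 0 < q := by linarith
  have hq0' : 0 < 1 / q := by positivity
  rcases (hH0 x).eq_or_lt with hx | hx
  · have : x = 0 := hzero x hx.symm
    subst this
    rw [zero_add, h00, Real.zero_rpow hq0'.ne', zero_add]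
  rcases (hH0 y).eq_or_lt with hy | hy
  · have : y = 0 := hzero y hy.symm
    subst this
    rw [add_zero, h00, Real.zero_rpow hq0'.ne', add_zero]
  set α := (H x) ^ (1 / q) with hα
  set β := (H y) ^ (1 / q) with hβ
  have hα0 : 0 < α := Real.rpow_pos_of_pos hx _
  have hβ0 : 0 < β := Real.rpow_pos_of_pos hy _
  have hαq : α ^ q = H x := by
    rw [hα, ← Real.rpow_mul hx.le, one_div_mul_cancel hq0.ne', Real.rpow_one]
  have hβq : β ^ q = H y := by
    rw [hβ, ← Real.rpow_mul hy.le, one_div_mul_cancel hq0.ne', Real.rpow_one]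
  have hx' : H ((1 / α) • x) = 1 := by
    rw [hhom _ _ (by positivity), abs_of_pos (by positivity), Real.div_rpow (by norm_num) hα0.le,
      Real.one_rpow, hαq]
    field_simp
  have hy' : H ((1 / β) • y) = 1 := by
    rw [hhom _ _ (by positivity), abs_of_pos (by positivity), Real.div_rpow (by norm_num) hβ0.le,
      Real.one_rpow, hβq]
    field_simp
  have hs : 0 < α + β := by positivity
  have h1 := hconv ((1 / α) • x) ((1 / β) • y) (α / (α + β)) (β / (α + β)) (by positivity)
    (by positivity) (by field_simp)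
  rw [hx', hy', mul_one, mul_one] at h1
  have e1 : (α / (α + β)) • (1 / α) • x + (β / (α + β)) • (1 / β) • y
      = (1 / (α + β)) • (x + y) := by
    rw [smul_smul, smul_smul, smul_add]
    congr 2 <;> field_simp
  have e2 : α / (α + β) + β / (α + β) = 1 := by field_simp
  rw [e1, e2] at h1
  have e3 : x + y = (α + β) • ((1 / (α + β)) • (x + y)) := by
    rw [smul_smul, mul_one_div_cancel hs.ne', one_smul]
  rw [e3, hhom _ _ (by positivity), abs_of_pos hs]
  have h2 : (α + β) ^ q * H ((1 / (α + β)) • (x + y)) ≤ (α + β) ^ q * 1 :=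
    mul_le_mul_of_nonneg_left h1 (by positivity)
  rw [mul_one] at h2
  calc ((α + β) ^ q * H ((1 / (α + β)) • (x + y))) ^ (1 / q)
      ≤ ((α + β) ^ q) ^ (1 / q) :=
        Real.rpow_le_rpow (mul_nonneg (by positivity) (hH0 _)) h2 hq0'.le
    _ = α + β := by
        rw [← Real.rpow_mul hs.le, mul_one_div_cancel hq0.ne', Real.rpow_one]

end Hull

end Pool.Agent.Work.MP_9fe0db_an
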