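import Mathlib
import Pool.Agent.Work.MP_9fe0db_an.Core
import Pool.Agent.Work.MP_9fe0db_an.Hull

set_option autoImplicit false

namespace Pool.Agent.Work.MP_9fe0db_an

/-- The simultaneous renorming for `1 < p ≤ 2 ≤ q`, for every real normed space in any universe
(completeness is not used). -/
theorem main (X : Type*) [NormedAddCommGroup X] [NormedSpace ℝ X] :
    ∀ p q : ℝ, 1 < p → p ≤ 2 → 2 ≤ q →
    (∃ N : X → ℝ,
        ((∀ x y : X, N (x + y) ≤ N x + N y) ∧
          (∀ (c : ℝ) (x : X), N (c • x) = |c| * N x) ∧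
          ∃ a b : ℝ, 0 < a ∧ 0 < b ∧ ∀ x : X, a * ‖x‖ ≤ N x ∧ N x ≤ b * ‖x‖) ∧
        ∃ K : ℝ, 0 < K ∧ ∀ ε : ℝ, 0 < ε → ε ≤ 2 → ∀ x y : X, N x = 1 → N y = 1 →
          ε ≤ N (x - y) → K * ε ^ q ≤ 1 - N ((1 / 2 : ℝ) • (x + y))) →
    (∃ N : X → ℝ,
        ((∀ x y : X, N (x + y) ≤ N x + N y) ∧
          (∀ (c : ℝ) (x : X), N (c • x) = |c| * N x) ∧
          ∃ a b : ℝ, 0 < a ∧ 0 < b ∧ ∀ x : X, a * ‖x‖ ≤ N x ∧ N x ≤ b * ‖x‖) ∧
        ∃ K : ℝ, 0 < K ∧ ∀ t : ℝ, 0 < t → t ≤ 1 → ∀ x y : X, N x = 1 → N y = 1 →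
          (N (x + t • y) + N (x - t • y)) / 2 - 1 ≤ K * t ^ p) →
    ∃ N : X → ℝ,
        ((∀ x y : X, N (x + y) ≤ N x + N y) ∧
          (∀ (c : ℝ) (x : X), N (c • x) = |c| * N x) ∧
          ∃ a b : ℝ, 0 < a ∧ 0 < b ∧ ∀ x : X, a * ‖x‖ ≤ N x ∧ N x ≤ b * ‖x‖) ∧
        (∃ K : ℝ, 0 < K ∧ ∀ ε : ℝ, 0 < ε → ε ≤ 2 → ∀ x y : X, N x = 1 → N y = 1 →
          ε ≤ N (x - y) → K * ε ^ q ≤ 1 - N ((1 / 2 : ℝ) • (x + y))) ∧
        ∃ K : ℝ, 0 < K ∧ ∀ t : ℝ, 0 < t → t ≤ 1 → ∀ x y : X, N x = 1 → N y = 1 →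
          (N (x + t • y) + N (x - t • y)) / 2 - 1 ≤ K * t ^ p := by
  intro p q hp hp2 hq
  rintro ⟨P, ⟨hPtri, hPhom, aP, bP, haP, hbP, hPb⟩, KP, hKP, hPδ⟩
  rintro ⟨Q, ⟨hQtri, hQhom, aQ, bQ, haQ, hbQ, hQb⟩, KQ, hKQ, hQρ⟩
  have hq0 : 0 < q := by linarith
  have hq1 : 1 ≤ q := by linarith
  have hp0 : 0 < p := by linarith
  have hP : IsN P := ⟨hPtri, hPhom⟩
  have hQ : IsN Q := ⟨hQtri, hQhom⟩
  have hQ0 : ∀ x : X, Q x = 0 → x = 0 := by
    intro x hx
    have h1 := (hQb x).1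
    rw [hx] at h1
    have h2 : ‖x‖ ≤ 0 := by
      by_contra h
      push Not at h
      have := mul_pos haQ h
      linarith
    exact norm_le_zero_iff.1 h2
  have hP0 : ∀ x : X, P x = 0 → x = 0 := by
    intro x hx
    have h1 := (hPb x).1
    rw [hx] at h1
    have h2 : ‖x‖ ≤ 0 := by
      by_contra h
      push Not at h
      have := mul_pos haP h
      linarith
    exact norm_le_zero_iff.1 h2
  -- comparison constants: P ≤ M Q and Q ≤ L P
  obtain ⟨M, hM0, hPQ⟩ : ∃ M : ℝ, 0 < M ∧ ∀ x, P x ≤ M * Q x := by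
    refine ⟨bP / aQ, by positivity, fun x => ?_⟩
    have h1 := (hPb x).2
    have h2 := (hQb x).1
    have h3 : bP / aQ * (aQ * ‖x‖) ≤ bP / aQ * Q x := mul_le_mul_of_nonneg_left h2 (by positivity)
    have h4 : bP / aQ * (aQ * ‖x‖) = bP * ‖x‖ := by field_simp
    linarith
  obtain ⟨L, hL0, hQP⟩ : ∃ L : ℝ, 0 < L ∧ ∀ x, Q x ≤ L * P x := by
    refine ⟨bQ / aP, by positivity, fun x => ?_⟩
    have h1 := (hQb x).2
    have h2 := (hPb x).1
    have h3 : bQ / aP * (aP * ‖x‖) ≤ bQ / aP * P x := mul_le_mul_of_nonneg_left h2 (by positivity)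
    have h4 : bQ / aP * (aP * ‖x‖) = bQ * ‖x‖ := by field_simp
    linarith
  obtain ⟨c, hc0, hconv⟩ := convex_power hP hq hKP hPδ
  obtain ⟨C, hC0, hsm⟩ := smooth_power hQ hQ0 hp hp2 hq hKQ hQρ
  -- the functions
  set f : X → ℝ := fun x => P x ^ q with hf
  set g : X → ℝ := fun x => (M * Q x) ^ q with hg
  set w : X → ℝ := fun y => (c * 2 ^ q / 2) * P y ^ q with hw
  have hf0 : ∀ x, 0 ≤ f x := fun x => Real.rpow_nonneg (hP.nonneg x) q
  have hw0 : ∀ y, 0 ≤ w y := fun y => by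
    have : 0 ≤ P y ^ q := Real.rpow_nonneg (hP.nonneg y) q
    show 0 ≤ (c * 2 ^ q / 2) * P y ^ q
    positivity
  have hfg : ∀ x, f x ≤ g x := fun x =>
    Real.rpow_le_rpow (hP.nonneg x) (hPQ x) hq0.le
  have hfconv : ∀ (x y : X) (a b : ℝ), 0 ≤ a → 0 ≤ b → a + b = 1 →
      f (a • x + b • y) ≤ a * f x + b * f y := by
    intro x y a b ha hb hab
    have h1 : P (a • x + b • y) ≤ a * P x + b * P y := by
      have := hP.tri (a • x) (b • y)
      rwa [hP.homn ha, hP.homn hb] at this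
    have h2 : P (a • x + b • y) ^ q ≤ (a * P x + b * P y) ^ q :=
      Real.rpow_le_rpow (hP.nonneg _) h1 hq0.le
    have h3 := (convexOn_rpow hq1).2 (Set.mem_Ici.2 (hP.nonneg x)) (Set.mem_Ici.2 (hP.nonneg y))
      ha hb hab
    simp only [smul_eq_mul] at h3
    exact h2.trans h3
  have hfmid : ∀ x y : X, f x + 2 * w y ≤ (f (x + y) + f (x - y)) / 2 := by
    intro x y
    have h1 := hconv (x + y) (x - y)
    have e1 : (1 / 2 : ℝ) • (x + y + (x - y)) = x := by
      have : x + y + (x - y) = (2 : ℝ) • x := by rw [two_smul]; abel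
      rw [this, smul_smul]; norm_num
    have e2 : x + y - (x - y) = (2 : ℝ) • y := by rw [two_smul]; abel
    rw [e1, e2, hP.homn (by norm_num), Real.mul_rpow (by norm_num) (hP.nonneg y)] at h1
    show P x ^ q + 2 * ((c * 2 ^ q / 2) * P y ^ q) ≤ (P (x + y) ^ q + P (x - y) ^ q) / 2
    linarith
  have hadm2 : Adm g (fun y => 2 * w y) f := ⟨hfg, hfconv, hfmid⟩
  have hadm1 : Adm g w f := ⟨hfg, hfconv, fun x y => by
    have := hfmid x y
    have := hw0 y
    linarith⟩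
  have hne : ∃ h, Adm g w h := ⟨f, hadm1⟩
  have hH := adm_hull hne
  have hfH : ∀ x, f x ≤ hull g w x := fun x => le_hull hadm1 x
  have hghom : ∀ (c : ℝ) (x : X), 0 < |c| → g (c • x) = |c| ^ q * g x := by
    intro c x hc
    show (M * Q (c • x)) ^ q = |c| ^ q * (M * Q x) ^ q
    rw [hQhom, ← Real.mul_rpow hc.le (mul_nonneg hM0.le (hQ.nonneg x))]
    congr 1; ring
  have hwhom : ∀ (c : ℝ) (x : X), 0 < |c| → w (c • x) = |c| ^ q * w x := by
    intro d x hd
    show (c * 2 ^ q / 2) * P (d • x) ^ q = |d| ^ q * ((c * 2 ^ q / 2) * P x ^ q)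
    rw [hPhom, Real.mul_rpow hd.le (hP.nonneg x)]
    ring
  have hHhom : ∀ (c : ℝ) (x : X), 0 < |c| → hull g w (c • x) = |c| ^ q * hull g w x :=
    fun c x hc => hull_hom hne hghom hwhom hc x
  have hHsm : ∀ {z : X} {κ : ℝ}, 0 ≤ κ →
      (∀ u : X, (g (u + z) + g (u - z)) / 2 ≤ g u + κ * (1 + g u)) → ∀ x : X,
      (hull g w (x + z) + hull g w (x - z)) / 2 ≤ hull g w x + 2 * κ * (1 + hull g w x) :=
    fun hκ hgu x => hull_smooth hadm2 hadm1 hf0 hw0 hκ hgu x
  clear_value f g w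
  set H : X → ℝ := hull g w with hHdef
  clear_value H
  have hH0 : ∀ x, 0 ≤ H x := fun x => (hf0 x).trans (hfH x)
  have hH00 : H 0 = 0 := by
    apply le_antisymm _ (hH0 0)
    have h1 := hH.le 0
    rw [hg] at h1
    simp only [hQ.zero, mul_zero, Real.zero_rpow hq0.ne'] at h1
    exact h1
  have hHzero : ∀ x, H x = 0 → x = 0 := by
    intro x hx
    apply hP0
    have h1 := hfH x
    rw [hx, hf] at h1
    simp only at h1
    have h2 : P x ^ q = 0 := le_antisymm h1 (Real.rpow_nonneg (hP.nonneg x) q)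
    exact (Real.rpow_eq_zero (hP.nonneg x) hq0.ne').1 h2
  -- the new norm
  let N : X → ℝ := fun x => (H x) ^ (1 / q)
  have hNq : ∀ x, N x ^ q = H x := by
    intro x
    show ((H x) ^ (1 / q)) ^ q = H x
    rw [← Real.rpow_mul (hH0 x), one_div_mul_cancel hq0.ne', Real.rpow_one]
  have hN0 : ∀ x, 0 ≤ N x := fun x => Real.rpow_nonneg (hH0 x) _
  have hPN : ∀ x, P x ≤ N x := by
    intro x
    have h1 : P x ^ q ≤ N x ^ q := by
      rw [hNq]
      have := hfH x
      rw [hf] at this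
      exact this
    exact (Real.rpow_le_rpow_iff (hP.nonneg x) (hN0 x) hq0).1 h1
  have hNQ : ∀ x, N x ≤ M * Q x := by
    intro x
    have h1 : N x ^ q ≤ (M * Q x) ^ q := by
      rw [hNq]
      have := hH.le x
      rw [hg] at this
      exact this
    exact (Real.rpow_le_rpow_iff (hN0 x) (mul_nonneg hM0.le (hQ.nonneg x)) hq0).1 h1
  have hNtri : ∀ x y, N (x + y) ≤ N x + N y := fun x y =>
    root_tri hq1 hH0 hHzero hH00 hH.conv hHhom x y
  have hNhom : ∀ (c : ℝ) (x : X), N (c • x) = |c| * N x := by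
    intro d x
    rcases (abs_nonneg d).eq_or_lt with h | h
    · have hd : d = 0 := abs_eq_zero.1 h.symm
      subst hd
      show (H ((0 : ℝ) • x)) ^ (1 / q) = _
      rw [zero_smul, hH00, Real.zero_rpow (by positivity), abs_zero, zero_mul]
    · show (H (d • x)) ^ (1 / q) = |d| * (H x) ^ (1 / q)
      rw [hHhom d x h, Real.mul_rpow (by positivity) (hH0 x), ← Real.rpow_mul h.le,
        mul_one_div_cancel hq0.ne', Real.rpow_one]
  have hN : IsN N := ⟨hNtri, hNhom⟩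
  refine ⟨N, ⟨hNtri, hNhom, aP, M * bQ, haP, by positivity, fun x => ⟨?_, ?_⟩⟩, ?_, ?_⟩
  · exact (hPb x).1.trans (hPN x)
  · calc N x ≤ M * Q x := hNQ x
      _ ≤ M * (bQ * ‖x‖) := mul_le_mul_of_nonneg_left (hQb x).2 hM0.le
      _ = M * bQ * ‖x‖ := by ring
  · -- convexity modulus
    set β : ℝ := M * L with hβ
    have hβ0 : 0 < β := by positivity
    have hNP : ∀ x, N x ≤ β * P x := fun x => by
      calc N x ≤ M * Q x := hNQ x
        _ ≤ M * (L * P x) := mul_le_mul_of_nonneg_left (hQP x) hM0.le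
        _ = β * P x := by rw [hβ]; ring
    refine ⟨(c * 2 ^ q / 2) * ((1 / (2 * β)) ^ q) / q, by positivity, ?_⟩
    intro ε hε hε2 x y hx hy hxy
    have h1 := hH.mid ((1 / 2 : ℝ) • (x + y)) ((1 / 2 : ℝ) • (x - y))
    have e1 : (1 / 2 : ℝ) • (x + y) + (1 / 2 : ℝ) • (x - y) = x := by
      rw [← smul_add]
      have : x + y + (x - y) = (2 : ℝ) • x := by rw [two_smul]; abel
      rw [this, smul_smul]; norm_num
    have e2 : (1 / 2 : ℝ) • (x + y) - (1 / 2 : ℝ) • (x - y) = y := by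
      rw [← smul_sub]
      have : x + y - (x - y) = (2 : ℝ) • y := by rw [two_smul]; abel
      rw [this, smul_smul]; norm_num
    rw [e1, e2, ← hNq, ← hNq, ← hNq, hx, hy, Real.one_rpow, hw] at h1
    simp only at h1
    have h2 : (1 / (2 * β)) * ε ≤ P ((1 / 2 : ℝ) • (x - y)) := by
      rw [hP.homn (by norm_num)]
      have h3 : ε ≤ β * P (x - y) := hxy.trans (hNP _)
      have h4 : (1 / (2 * β)) * ε ≤ (1 / (2 * β)) * (β * P (x - y)) :=
        mul_le_mul_of_nonneg_left h3 (by positivity)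
      have h5 : (1 / (2 * β)) * (β * P (x - y)) = 1 / 2 * P (x - y) := by field_simp
      linarith
    have h3 : ((1 / (2 * β)) * ε) ^ q ≤ P ((1 / 2 : ℝ) • (x - y)) ^ q :=
      Real.rpow_le_rpow (by positivity) h2 hq0.le
    rw [Real.mul_rpow (by positivity) hε.le] at h3
    have h4 := bern hq1 (hN0 ((1 / 2 : ℝ) • (x + y)))
    have h5 : (c * 2 ^ q / 2) * ((1 / (2 * β)) ^ q * ε ^ q) ≤
        (c * 2 ^ q / 2) * P ((1 / 2 : ℝ) • (x - y)) ^ q :=
      mul_le_mul_of_nonneg_left h3 (by positivity)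
    have h6 : (c * 2 ^ q / 2) * ((1 / (2 * β)) ^ q * ε ^ q) ≤
        q * (1 - N ((1 / 2 : ℝ) • (x + y))) := by linarith
    have h7 : (c * 2 ^ q / 2) * ((1 / (2 * β)) ^ q) / q * ε ^ q =
        (c * 2 ^ q / 2) * ((1 / (2 * β)) ^ q * ε ^ q) / q := by ring
    rw [h7, div_le_iff₀ hq0]
    linarith
  · -- smoothness modulus
    set B : ℝ := C * (L ^ p + L ^ q) * (1 + M ^ q) with hB
    have hB0 : 0 < B := by positivity
    refine ⟨4 * B / q, by positivity, ?_⟩
    intro t ht ht1 x y hx hy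
    have hHx : H x = 1 := by rw [← hNq, hx, Real.one_rpow]
    have hQy : Q y ≤ L := by
      calc Q y ≤ L * P y := hQP y
        _ ≤ L * N y := mul_le_mul_of_nonneg_left (hPN y) hL0.le
        _ = L := by rw [hy, mul_one]
    have hgu : ∀ u : X, (g (u + t • y) + g (u - t • y)) / 2 ≤ g u + (B * t ^ p) * (1 + g u) := by
      intro u
      have h1 := hsm u (t • y)
      have hQty : Q (t • y) ≤ t * L := by
        rw [hQ.homn ht.le]; exact mul_le_mul_of_nonneg_left hQy ht.le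
      have h2 : Q (t • y) ^ p ≤ t ^ p * L ^ p := by
        rw [← Real.mul_rpow ht.le hL0.le]
        exact Real.rpow_le_rpow (hQ.nonneg _) hQty hp0.le
      have h3 : Q (t • y) ^ q ≤ t ^ p * L ^ q := by
        calc Q (t • y) ^ q ≤ (t * L) ^ q := Real.rpow_le_rpow (hQ.nonneg _) hQty hq0.le
          _ = t ^ q * L ^ q := Real.mul_rpow ht.le hL0.le
          _ ≤ t ^ p * L ^ q := by
            apply mul_le_mul_of_nonneg_right _ (by positivity)
            exact Real.rpow_le_rpow_of_exponent_ge ht ht1 (by linarith)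
      have h4 : Q u ^ (q - p) ≤ 1 + Q u ^ q := by
        rcases le_total (Q u) 1 with h | h
        · have h5 : Q u ^ (q - p) ≤ 1 := Real.rpow_le_one (hQ.nonneg u) h (by linarith)
          have h6 : 0 ≤ Q u ^ q := Real.rpow_nonneg (hQ.nonneg u) q
          linarith
        · have h5 : Q u ^ (q - p) ≤ Q u ^ q :=
            Real.rpow_le_rpow_of_exponent_le h (by linarith)
          linarith
      have hQu : 0 ≤ Q u ^ q := Real.rpow_nonneg (hQ.nonneg u) q
      have hQu' : 0 ≤ Q u ^ (q - p) := Real.rpow_nonneg (hQ.nonneg u) _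
      have h5 : Q (t • y) ^ p * Q u ^ (q - p) + Q (t • y) ^ q ≤
          t ^ p * (L ^ p + L ^ q) * (1 + Q u ^ q) := by
        have h6 : Q (t • y) ^ p * Q u ^ (q - p) ≤ (t ^ p * L ^ p) * (1 + Q u ^ q) :=
          mul_le_mul h2 h4 hQu' (by positivity)
        have h7 : t ^ p * L ^ q ≤ t ^ p * L ^ q * (1 + Q u ^ q) := by
          have : 0 ≤ t ^ p * L ^ q := by positivity
          nlinarith
        nlinarith
      have h6 : (Q (u + t • y) ^ q + Q (u - t • y) ^ q) / 2 ≤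
          Q u ^ q + C * (t ^ p * (L ^ p + L ^ q) * (1 + Q u ^ q)) :=
        h1.trans (by
          have := mul_le_mul_of_nonneg_left h5 hC0.le
          linarith)
      have h7 := mul_le_mul_of_nonneg_left h6 (by positivity : 0 ≤ M ^ q)
      have e1 : ∀ v, g v = M ^ q * Q v ^ q := by
        intro v
        rw [hg]
        exact Real.mul_rpow hM0.le (hQ.nonneg v)
      rw [e1, e1, e1, hB]
      have h8 : M ^ q * (C * (t ^ p * (L ^ p + L ^ q) * (1 + Q u ^ q))) ≤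
          C * (L ^ p + L ^ q) * (1 + M ^ q) * t ^ p * (1 + M ^ q * Q u ^ q) := by
        have h9 : M ^ q * (1 + Q u ^ q) ≤ (1 + M ^ q) * (1 + M ^ q * Q u ^ q) := by
          have hMq : 0 ≤ M ^ q := by positivity
          nlinarith [mul_nonneg hMq hQu, mul_nonneg hMq (mul_nonneg hMq hQu)]
        have h10 : 0 ≤ C * t ^ p * (L ^ p + L ^ q) := by positivity
        have h11 := mul_le_mul_of_nonneg_left h9 h10
        calc M ^ q * (C * (t ^ p * (L ^ p + L ^ q) * (1 + Q u ^ q)))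
            = C * t ^ p * (L ^ p + L ^ q) * (M ^ q * (1 + Q u ^ q)) := by ring
          _ ≤ _ := h11
          _ = _ := by ring
      linarith
    have h1 := hHsm (by positivity : 0 ≤ B * t ^ p) hgu x
    rw [hHx, ← hNq, ← hNq] at h1
    have h2 := bern hq1 (hN0 (x + t • y))
    have h3 := bern hq1 (hN0 (x - t • y))
    have h4 : q * ((N (x + t • y) + N (x - t • y)) / 2 - 1) ≤ 4 * B * t ^ p := by linarith
    have h5 : 4 * B / q * t ^ p = (4 * B * t ^ p) / q := by ring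
    rw [h5, le_div_iff₀ hq0]
    linarith

end Pool.Agent.Work.MP_9fe0db_an
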